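import Mathlib

set_option autoImplicit false

open MeasureTheory Set Metric
open scoped ContDiff ENNReal

namespace Pool.Agent.Q162.LV

/-- the statement for one variable with the constant `C` -/
def OneD (C : ℝ) : Prop := ∀ (f : ℝ → ℝ) (B M δ : ℝ), ContDiff ℝ ∞ f → 0 < B → 0 < M →
  0 < δ → (∀ s ∈ Icc (-δ) δ, |iteratedDeriv 3 f s| ≤ B) →
    ∫ s in Icc (-δ) δ ∩ {s | |f s| ≤ M}, |deriv f s| ≤ C * (M + δ * (B * M ^ 2) ^ (1 / 3 : ℝ))

/-- the derivative in the direction `j` -/
noncomputable def qd (j : Fin 3) (f : (Fin 3 → ℝ) → ℝ) (x : Fin 3 → ℝ) : ℝ := fderiv ℝ f x (Pi.single j 1)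

lemma qd_smooth (j : Fin 3) {f : (Fin 3 → ℝ) → ℝ} (hf : ContDiff ℝ ∞ f) : ContDiff ℝ ∞ (qd j f) := by
  unfold qd
  exact (hf.fderiv_right (m := ∞) (by simp)).clm_apply contDiff_const

lemma line_deriv (j : Fin 3) {f : (Fin 3 → ℝ) → ℝ} (hf : ContDiff ℝ ∞ f) (y : Fin 3 → ℝ) (s : ℝ) :
    HasDerivAt (fun s : ℝ => f (y + s • (Pi.single j 1 : Fin 3 → ℝ))) (qd j f (y + s • (Pi.single j 1 : Fin 3 → ℝ))) s := by
  have h1 : HasDerivAt (fun s : ℝ => y + s • (Pi.single j 1 : Fin 3 → ℝ)) (Pi.single j 1 : Fin 3 → ℝ) s := by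
    have := ((hasDerivAt_id s).smul_const (Pi.single j 1 : Fin 3 → ℝ)).const_add y
    rwa [one_smul] at this
  have h2 : HasFDerivAt f (fderiv ℝ f (y + s • (Pi.single j 1 : Fin 3 → ℝ))) (y + s • (Pi.single j 1 : Fin 3 → ℝ)) :=
    (hf.differentiable (by simp) _).hasFDerivAt
  exact h2.comp_hasDerivAt s h1

lemma line_deriv_eq (j : Fin 3) {f : (Fin 3 → ℝ) → ℝ} (hf : ContDiff ℝ ∞ f) (y : Fin 3 → ℝ) :
    deriv (fun s : ℝ => f (y + s • (Pi.single j 1 : Fin 3 → ℝ))) =
      fun s : ℝ => qd j f (y + s • (Pi.single j 1 : Fin 3 → ℝ)) := by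
  funext s
  exact (line_deriv j hf y s).deriv

lemma line_three (j : Fin 3) {f : (Fin 3 → ℝ) → ℝ} (hf : ContDiff ℝ ∞ f) (y : Fin 3 → ℝ) (s : ℝ) :
    iteratedDeriv 3 (fun s : ℝ => f (y + s • (Pi.single j 1 : Fin 3 → ℝ))) s =
      qd j (qd j (qd j f)) (y + s • (Pi.single j 1 : Fin 3 → ℝ)) := by
  rw [iteratedDeriv_succ, iteratedDeriv_succ, iteratedDeriv_one, line_deriv_eq j hf,
    line_deriv_eq j (qd_smooth j hf), line_deriv_eq j (qd_smooth j (qd_smooth j hf))]

lemma ins_eq (j : Fin 3) (a s : ℝ) (w : Fin 2 → ℝ) :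
    (j.insertNth (a + s) w : Fin 3 → ℝ) = (j.insertNth a w : Fin 3 → ℝ) + s • (Pi.single j 1 : Fin 3 → ℝ) := by
  funext k
  rcases Fin.eq_self_or_eq_succAbove j k with h | ⟨l, h⟩
  · subst h
    simp
  · subst h
    simp

/-- integration along the lines in the direction `j` -/
lemma core {C : ℝ} (hC : 0 < C) (h1 : OneD C) (j : Fin 3) {f : (Fin 3 → ℝ) → ℝ} (hf : ContDiff ℝ ∞ f) (z : Fin 3 → ℝ)
    {δ B M : ℝ} (hδ : 0 < δ) (hB : 0 < B) (hM : 0 < M)
    (hb : ∀ y ∈ closedBall z δ, |qd j (qd j (qd j f)) y| ≤ B) :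
    ∫⁻ y in closedBall z δ ∩ {y | |f y| ≤ M}, ENNReal.ofReal |qd j f y| ≤
      ENNReal.ofReal (4 * δ ^ 2 * (C * (M + δ * (B * M ^ 2) ^ (1 / 3 : ℝ)))) := by
  set c : ℝ := C * (M + δ * (B * M ^ 2) ^ (1 / 3 : ℝ)) with hc
  have hc0 : 0 ≤ c := by positivity
  have hmS : MeasurableSet (closedBall z δ ∩ {y | |f y| ≤ M}) :=
    isClosed_closedBall.measurableSet.inter
      (isClosed_le (continuous_abs.comp hf.continuous) continuous_const).measurableSet
  set G : (Fin 3 → ℝ) → ℝ≥0∞ := (closedBall z δ ∩ {y | |f y| ≤ M}).indicator fun y => ENNReal.ofReal |qd j f y| with hG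
  have hGm : Measurable G :=
    ((ENNReal.continuous_ofReal.comp (continuous_abs.comp (qd_smooth j hf).continuous)).measurable).indicator hmS
  rw [← lintegral_indicator hmS]
  -- Fubini
  have hmp := volume_preserving_piFinSuccAbove (fun _ : Fin 3 => ℝ) j
  have e1 : ∫⁻ y, G y = ∫⁻ p : ℝ × (Fin 2 → ℝ), G (j.insertNth p.1 p.2) := by
    rw [← (hmp.symm _).lintegral_comp_emb (MeasurableEquiv.measurableEmbedding _)]
    rfl
  have hGm' : Measurable fun p : ℝ × (Fin 2 → ℝ) => G (j.insertNth p.1 p.2) :=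
    hGm.comp (MeasurableEquiv.piFinSuccAbove (fun _ : Fin 3 => ℝ) j).symm.measurable
  rw [e1, Measure.volume_eq_prod, lintegral_prod_symm' _ hGm']
  -- one line
  have hline : ∀ w : Fin 2 → ℝ, ∫⁻ s, G (j.insertNth s w) ≤
      (closedBall (fun l => z (j.succAbove l)) δ).indicator (fun _ => ENNReal.ofReal c) w := by
    intro w
    by_cases hw : w ∈ closedBall (fun l => z (j.succAbove l)) δ
    · rw [Set.indicator_of_mem hw]
      rw [← lintegral_add_left_eq_self (fun s => G (j.insertNth s w)) (z j)]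
      set y0 : Fin 3 → ℝ := j.insertNth (z j) w with hy0
      set g : ℝ → ℝ := fun s => f (y0 + s • (Pi.single j 1 : Fin 3 → ℝ)) with hg
      have hgs : ContDiff ℝ ∞ g := hf.comp (contDiff_const.add (contDiff_id.smul contDiff_const))
      have hball : ∀ s, y0 + s • (Pi.single j 1 : Fin 3 → ℝ) ∈ closedBall z δ ↔ s ∈ Icc (-δ) δ := by
        intro s
        rw [hy0, ← ins_eq, mem_closedBall, dist_pi_le_iff hδ.le]
        rw [mem_closedBall, dist_pi_le_iff hδ.le] at hw
        constructor
        · intro h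
          have := h j
          simp only [Fin.insertNth_apply_same, Real.dist_eq] at this
          rw [add_sub_cancel_left] at this
          exact abs_le.1 this
        · intro h k
          rcases Fin.eq_self_or_eq_succAbove j k with hk | ⟨l, hk⟩
          · subst hk
            simp only [Fin.insertNth_apply_same, Real.dist_eq]
            rw [add_sub_cancel_left]
            exact abs_le.2 h
          · subst hk
            simpa using hw l
      have e2 : ∀ s, G (j.insertNth (z j + s) w) =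
          (Icc (-δ) δ ∩ {s | |g s| ≤ M}).indicator (fun s => ENNReal.ofReal |deriv g s|) s := by
        intro s
        rw [ins_eq, ← hy0, hG]
        by_cases hs : s ∈ Icc (-δ) δ ∩ {s | |g s| ≤ M}
        · have hs' : y0 + s • (Pi.single j 1 : Fin 3 → ℝ) ∈ closedBall z δ ∩ {y | |f y| ≤ M} := ⟨(hball s).2 hs.1, hs.2⟩
          rw [Set.indicator_of_mem hs, Set.indicator_of_mem hs', hg, line_deriv_eq j hf]
        · rw [Set.indicator_of_notMem hs, Set.indicator_of_notMem]
          intro h
          exact hs ⟨(hball s).1 h.1, h.2⟩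
      have hmI : MeasurableSet (Icc (-δ) δ ∩ {s | |g s| ≤ M}) :=
        measurableSet_Icc.inter (isClosed_le (continuous_abs.comp hgs.continuous) continuous_const).measurableSet
      simp only [e2]
      rw [lintegral_indicator hmI]
      have hint : IntegrableOn (fun s => |deriv g s|) (Icc (-δ) δ ∩ {s | |g s| ≤ M}) := by
        have h2 : Continuous fun s => |deriv g s| :=
          continuous_abs.comp (hgs.continuous_deriv (by simp))
        exact (h2.continuousOn.integrableOn_Icc).mono_set inter_subset_left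
      rw [← ofReal_integral_eq_lintegral_ofReal hint (Filter.Eventually.of_forall fun s => abs_nonneg _)]
      refine ENNReal.ofReal_le_ofReal (h1 g B M δ hgs hB hM hδ fun s hs => ?_)
      rw [hg, line_three j hf]
      exact hb _ ((hball s).2 hs)
    · rw [Set.indicator_of_notMem hw]
      refine le_of_eq ?_
      have : ∀ s, G (j.insertNth s w) = 0 := by
        intro s
        rw [hG, Set.indicator_of_notMem]
        intro h
        apply hw
        have h2 := h.1
        rw [mem_closedBall, dist_pi_le_iff hδ.le] at h2 ⊢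
        intro l
        have := h2 (j.succAbove l)
        simpa using this
      simp [this]
  refine (lintegral_mono hline).trans ?_
  rw [lintegral_indicator isClosed_closedBall.measurableSet, lintegral_const, Measure.restrict_apply_univ,
    Real.volume_pi_closedBall _ hδ.le, ← ENNReal.ofReal_mul hc0]
  refine ENNReal.ofReal_le_ofReal (le_of_eq ?_)
  simp only [Fintype.card_fin]
  ring

end Pool.Agent.Q162.LV
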