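import Pool.Agent.Q67.LV.Defs
import Pool.Agent.Q162.LV.Line

/-! LV-2 of the project LV of helper67: the variation of the vorticity in a cube. -/

set_option autoImplicit false

open MeasureTheory Set Metric
open scoped ContDiff ENNReal
open H459R3.NS Pool.Agent.W268.NS Pool.Agent.Q67.VD
open Pool.Agent.Q85.CC Pool.Agent.Q85.CL Pool.Agent.Q151.CC Pool.Agent.Q85.VL
open Pool.Agent.Q67.LV

namespace Pool.Agent.Q162.LV

lemma pd_eq (j : Fin 3) (f : V → ℝ) : pd j f = qd j f := rfl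

/-- the components of the vorticity are entries of the vorticity matrix -/
lemma vort_Om (v : V → V) (i : Fin 3) : ∃ p : Fin 3 × Fin 3, (fun y => vort v y i) = TH305.DR.Om p.1 p.2 v := by
  fin_cases i
  · exact ⟨(1, 2), rfl⟩
  · exact ⟨(2, 0), rfl⟩
  · exact ⟨(0, 1), rfl⟩

lemma third_le (v : V → V) (i j : Fin 3) (y : V) :
    (pd j (pd j (pd j fun y => vort v y i)) y) ^ 2 ≤ TH305.DR.ST 3 v y := by
  obtain ⟨p, hp⟩ := vort_Om v i
  rw [hp]
  have h0 : ∀ (n : ℕ) (f : V → ℝ), TH305.DR.SS n (pd j f) y ≤ TH305.DR.SS (n + 1) f y := by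
    intro n f
    rw [TH305.DR.SS_succ]
    exact Finset.single_le_sum (f := fun i => TH305.DR.SS n (pd i f) y) (fun i _ => TH305.DR.SS_nonneg _ _ _)
      (Finset.mem_univ j)
  have h1 : TH305.DR.SS 3 (TH305.DR.Om p.1 p.2 v) y ≤ TH305.DR.ST 3 v y := by
    unfold TH305.DR.ST
    exact Finset.single_le_sum (f := fun p : Fin 3 × Fin 3 => TH305.DR.SS 3 (TH305.DR.Om p.1 p.2 v) y)
      (fun p _ => TH305.DR.SS_nonneg _ _ _) (Finset.mem_univ p)
  calc (pd j (pd j (pd j (TH305.DR.Om p.1 p.2 v))) y) ^ 2 = TH305.DR.SS 0 (pd j (pd j (pd j (TH305.DR.Om p.1 p.2 v)))) y :=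
        (TH305.DR.SS_zero _ _).symm
    _ ≤ _ := (h0 0 _).trans ((h0 1 _).trans ((h0 2 _).trans h1))

lemma vort_smooth {v : V → V} (hv : SM v) (i : Fin 3) : ContDiff ℝ ∞ fun y => vort v y i := by
  obtain ⟨p, hp⟩ := vort_Om v i
  rw [hp]
  have h1 : ContDiff ℝ ∞ fun x => pd p.1 (fun y => v y p.2) x - pd p.2 (fun y => v y p.1) x :=
    (qd_smooth p.1 (hv p.2)).sub (qd_smooth p.2 (hv p.1))
  exact h1

lemma abs_le_om (v : V → V) (i : Fin 3) (y : V) : |vort v y i| ≤ om v y := by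
  unfold om len
  refine Real.le_sqrt_of_sq_le ?_
  rw [sq_abs]
  exact coord_sq (vort v y) i

/-- LV-2 -/
theorem cube (h : StmOneD) : StmCube := by
  obtain ⟨C1, hC1, h1⟩ := h
  have h1' : OneD C1 := h1
  intro K hK
  refine ⟨36 * C1 * (1 + K ^ (1 / 6 : ℝ)), by positivity, ?_⟩
  intro v z δ r M hv hr hr1 hδ hδr hM hST
  have hM0 : 0 < M := by linarith
  set B : ℝ := √K / r ^ 5 with hB
  have hB0 : 0 < B := by positivity
  -- one pair
  have hone : ∀ i j : Fin 3, ∫⁻ y in closedBall z δ ∩ {y | om v y ≤ M}, ENNReal.ofReal |pd j (fun y => vort v y i) y| ≤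
      ENNReal.ofReal (4 * C1 * (1 + K ^ (1 / 6 : ℝ)) * M * r ^ (4 / 3 : ℝ)) := by
    intro i j
    have hs := vort_smooth hv i
    have h2 := core hC1 h1' j hs z (δ := δ) (B := B) (M := M) hδ hB0 hM0 (by
      intro y hy
      have h3 := third_le v i j y
      have h4 := hST y hy
      refine abs_le_of_sq_le_sq ?_ hB0.le
      have h5 : B ^ 2 = K / r ^ 10 := by
        rw [hB, div_pow, Real.sq_sqrt hK.le]
        ring
      rw [h5, le_div_iff₀ (by positivity)]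
      have h6 : (pd j (pd j (pd j fun y => vort v y i)) y) ^ 2 * r ^ 10 ≤ TH305.DR.ST 3 v y * r ^ 10 := by gcongr
      have h7 : (qd j (qd j (qd j fun y => vort v y i)) y) = pd j (pd j (pd j fun y => vort v y i)) y := rfl
      rw [h7]
      linarith)
    have h8 : ∫⁻ y in closedBall z δ ∩ {y | om v y ≤ M}, ENNReal.ofReal |pd j (fun y => vort v y i) y| ≤
        ∫⁻ y in closedBall z δ ∩ {y | |vort v y i| ≤ M}, ENNReal.ofReal |pd j (fun y => vort v y i) y| :=
      lintegral_mono_set fun y hy => ⟨hy.1, (abs_le_om v i y).trans hy.2⟩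
    refine h8.trans (h2.trans (ENNReal.ofReal_le_ofReal ?_))
    -- numbers
    have e1 : δ * (B * M ^ 2) ^ (1 / 3 : ℝ) ≤ K ^ (1 / 6 : ℝ) * M * r ^ (-(2 / 3) : ℝ) := by
      have e2 : (B * M ^ 2) ^ (1 / 3 : ℝ) = K ^ (1 / 6 : ℝ) * r ^ (-(5 / 3) : ℝ) * M ^ (2 / 3 : ℝ) := by
        rw [Real.mul_rpow hB0.le (by positivity), hB, Real.div_rpow (by positivity) (by positivity),
          Real.sqrt_eq_rpow, ← Real.rpow_mul hK.le, ← Real.rpow_natCast r 5, ← Real.rpow_mul hr.le,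
          ← Real.rpow_natCast M 2, ← Real.rpow_mul hM0.le, div_eq_mul_inv, ← Real.rpow_neg hr.le]
        norm_num
      have e3 : M ^ (2 / 3 : ℝ) ≤ M := by
        calc M ^ (2 / 3 : ℝ) ≤ M ^ (1 : ℝ) := Real.rpow_le_rpow_of_exponent_le hM (by norm_num)
          _ = M := Real.rpow_one M
      have e4 : r * r ^ (-(5 / 3) : ℝ) = r ^ (-(2 / 3) : ℝ) := by
        nth_rewrite 1 [← Real.rpow_one r]
        rw [← Real.rpow_add hr]
        norm_num
      rw [e2]
      calc δ * (K ^ (1 / 6 : ℝ) * r ^ (-(5 / 3) : ℝ) * M ^ (2 / 3 : ℝ)) ≤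
            r * (K ^ (1 / 6 : ℝ) * r ^ (-(5 / 3) : ℝ) * M) := by gcongr
        _ = K ^ (1 / 6 : ℝ) * M * (r * r ^ (-(5 / 3) : ℝ)) := by ring
        _ = _ := by rw [e4]
    have e5 : M ≤ M * r ^ (-(2 / 3) : ℝ) := by
      have : 1 ≤ r ^ (-(2 / 3) : ℝ) := Real.one_le_rpow_of_pos_of_le_one_of_nonpos hr hr1 (by norm_num)
      nlinarith
    have e6 : r ^ 2 * r ^ (-(2 / 3) : ℝ) = r ^ (4 / 3 : ℝ) := by
      rw [← Real.rpow_natCast r 2, ← Real.rpow_add hr]
      norm_num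
    have hrp : 0 < r ^ (-(2 / 3) : ℝ) := by positivity
    calc 4 * δ ^ 2 * (C1 * (M + δ * (B * M ^ 2) ^ (1 / 3 : ℝ))) ≤
          4 * r ^ 2 * (C1 * (M * r ^ (-(2 / 3) : ℝ) + K ^ (1 / 6 : ℝ) * M * r ^ (-(2 / 3) : ℝ))) := by gcongr
      _ = 4 * C1 * (1 + K ^ (1 / 6 : ℝ)) * M * (r ^ 2 * r ^ (-(2 / 3) : ℝ)) := by ring
      _ = _ := by rw [e6]
  have hcont : ∀ i j : Fin 3, Continuous fun y => pd j (fun y => vort v y i) y := fun i j =>
    (qd_smooth j (vort_smooth hv i)).continuous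
  have e7 : ∀ y, ENNReal.ofReal (dom v y) = ∑ i, ∑ j, ENNReal.ofReal |pd j (fun y => vort v y i) y| := by
    intro y
    unfold dom
    rw [ENNReal.ofReal_sum_of_nonneg fun i _ => Finset.sum_nonneg fun j _ => abs_nonneg _]
    refine Finset.sum_congr rfl fun i _ => ?_
    rw [ENNReal.ofReal_sum_of_nonneg fun j _ => abs_nonneg _]
  have hmeas : ∀ i j : Fin 3, Measurable fun y => ENNReal.ofReal |pd j (fun y => vort v y i) y| := fun i j =>
    (ENNReal.continuous_ofReal.comp (continuous_abs.comp (hcont i j))).measurable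
  have hmeas2 : ∀ i : Fin 3, Measurable fun y => ∑ j, ENNReal.ofReal |pd j (fun y => vort v y i) y| := fun i =>
    Finset.measurable_sum Finset.univ fun j _ => hmeas i j
  simp only [e7]
  rw [lintegral_finsetSum Finset.univ fun i _ => hmeas2 i]
  have e8 : ∀ i ∈ (Finset.univ : Finset (Fin 3)), ∫⁻ y in closedBall z δ ∩ {y | om v y ≤ M},
      ∑ j, ENNReal.ofReal |pd j (fun y => vort v y i) y| ≤
      ENNReal.ofReal (12 * C1 * (1 + K ^ (1 / 6 : ℝ)) * M * r ^ (4 / 3 : ℝ)) := by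
    intro i _
    rw [lintegral_finsetSum Finset.univ fun j _ => hmeas i j]
    refine (Finset.sum_le_sum fun j _ => hone i j).trans ?_
    rw [Finset.sum_const, Finset.card_univ, Fintype.card_fin, nsmul_eq_mul]
    have : ((3 : ℕ) : ℝ≥0∞) = ENNReal.ofReal 3 := by simp
    rw [this, ← ENNReal.ofReal_mul (by norm_num)]
    refine ENNReal.ofReal_le_ofReal (le_of_eq ?_)
    ring
  refine (Finset.sum_le_sum e8).trans ?_
  rw [Finset.sum_const, Finset.card_univ, Fintype.card_fin, nsmul_eq_mul]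
  have : ((3 : ℕ) : ℝ≥0∞) = ENNReal.ofReal 3 := by simp
  rw [this, ← ENNReal.ofReal_mul (by norm_num)]
  refine ENNReal.ofReal_le_ofReal (le_of_eq ?_)
  ring

end Pool.Agent.Q162.LV
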